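import Pool.Agent.Lib.H84G.Fin0

/-!
# Integral closedness and the invariant `Γ_P` (MP_8f98a9_co, Q1): a family of counterexamples

Q1 asks whether every lattice polytope `P` with `L(P) ≥ Γ_P + 1` is integrally closed. We show that
for all `n ≥ 3` and all `k` with `1 ≤ k ≤ (n - 1) / 2` there is an `n`-dimensional lattice polytope
`P` with `Γ_P = 0` and `L(P) = k` that is not integrally closed. So Q1 fails in every dimension
`n ≥ 3`, and no lower bound for `L(P)` in terms of `Γ_P` alone implies integral closedness.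

The polytope is `P = k Q`, where `Q` is the convex hull of the points `t` and `t + e_0` for
`t = 0`, `t = e_l` (`1 ≤ l ≤ n - 1`) and `t = (2k+2; -1, .., -1, 1, .., 1, 0, .., 0)` (`k` entries
`-1`, `k` entries `1`). Definitions (`IsLatticePolytope`, `Gamma`, `latticeLength`,
`IsIntegrallyClosed` and those they use) are in `Pool/Agent/Lib/H84G/Base.lean`; a one-page proof is
in `Pool/Agent/Lib/H84G/PROOF.md`.
-/

set_option autoImplicit false

namespace Pool.Agent.Results.MP_8f98a9_co.GammaFamily

open Pool.Agent.Lib.H84G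

/-- **Disproof of Q1, in every dimension `n ≥ 3` and with arbitrarily long edges.** For all `n`,
`k` with `1 ≤ k` and `2 k + 1 ≤ n` there is a full-dimensional lattice polytope `P ⊆ ℝ^n` with
`Γ_P = 0` and `L(P) = k`, hence `L(P) ≥ Γ_P + 1`, which is not integrally closed. -/
theorem result (n k : ℕ) (hk : 1 ≤ k) (hn : 2 * k + 1 ≤ n) :
    ∃ P : Set (Fin n → ℝ), IsLatticePolytope P ∧ Gamma P = 0 ∧ latticeLength P = k ∧
      (latticeLength P : ℝ) ≥ Gamma P + 1 ∧ ¬ IsIntegrallyClosed P := by
  obtain ⟨P, h1, h2, h3, h4⟩ := family n k hk hn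
  refine ⟨P, h1, h2, h3, ?_, h4⟩
  rw [h2, h3]
  have : (1 : ℝ) ≤ (k : ℝ) := by exact_mod_cast hk
  linarith

end Pool.Agent.Results.MP_8f98a9_co.GammaFamily
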